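import Mathlib

namespace Pool.Agent.Results.MP_90e7d5_co.Unbounded

open Finset

/-- `G` is a star-`k`-PCG: there are positive weights and `k` pairwise disjoint closed intervals
such that distinct vertices are adjacent if and only if their weights sum to a member of the union
of the intervals. -/
def IsStarPCG {V : Type*} (G : SimpleGraph V) (k : ℕ) : Prop :=
  ∃ (w : V → ℝ) (a b : Fin k → ℝ), (∀ v, 0 < w v) ∧ (∀ i, a i ≤ b i) ∧
    (∀ i j, i ≠ j → Disjoint (Set.Icc (a i) (b i)) (Set.Icc (a j) (b j))) ∧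
    ∀ u v, u ≠ v → (G.Adj u v ↔ ∃ i, w u + w v ∈ Set.Icc (a i) (b i))

/-- vertices of the complete tree -/
abbrev VT (M h : ℕ) := {l : List (Fin M) // l.length ≤ h}

/-- The complete rooted tree of depth `h` with `M` children at each inner vertex: vertices are the
words of length at most `h`, the parent of `x :: l` is `l`. -/
def TT (M h : ℕ) : SimpleGraph (VT M h) where
  Adj u v := (∃ x, v.1 = x :: u.1) ∨ (∃ x, u.1 = x :: v.1)
  symm := ⟨fun _ _ h => h.symm⟩
  loopless := ⟨fun u h => by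
    rcases h with ⟨x, h⟩ | ⟨x, h⟩ <;>
    · have := congrArg List.length h
      simp at this⟩

theorem finite_VT (M h : ℕ) : Finite (VT M h) := (List.finite_length_le (Fin M) h).to_subtype

theorem acyclic (M h : ℕ) : (TT M h).IsAcyclic := by
  intro v c hc
  obtain ⟨m, hm, hmax⟩ := c.support.toFinset.exists_max_image (fun v => v.1.length)
    ⟨v, by simp⟩
  have hm' : m ∈ c.support := by simpa using hm
  have hc' := hc.rotate hm'
  have h1 := hc'.snd_ne_penultimate
  have h2 : (TT M h).Adj m (c.rotate m hm').snd := (c.rotate m hm').adj_snd hc'.not_nil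
  have h3 : (TT M h).Adj (c.rotate m hm').penultimate m :=
    (c.rotate m hm').adj_penultimate hc'.not_nil
  have key : ∀ u, u ∈ c.support → (TT M h).Adj m u → m.1.tail = u.1 := by
    intro u hu hmu
    rcases hmu with ⟨x, hx⟩ | ⟨x, hx⟩
    · have := hmax u (by simpa using hu)
      rw [hx] at this
      simp at this
    · rw [hx]; rfl
  have h4 : (c.rotate m hm').snd ∈ c.support :=
    (c.mem_support_rotate_iff m hm').1 (SimpleGraph.Walk.getVert_mem_support _ _)
  have h5 : (c.rotate m hm').penultimate ∈ c.support :=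
    (c.mem_support_rotate_iff m hm').1 (SimpleGraph.Walk.getVert_mem_support _ _)
  apply h1
  apply Subtype.ext
  rw [← key _ h4 h2, ← key _ h5 h3.symm]

theorem connected (M h : ℕ) : (TT M h).Connected := by
  have key : ∀ n : ℕ, ∀ v : VT M h, v.1.length = n → (TT M h).Reachable ⟨[], by simp⟩ v := by
    intro n
    induction n with
    | zero =>
      intro v hv
      have : v = ⟨[], by simp⟩ := Subtype.ext (List.eq_nil_of_length_eq_zero hv)
      rw [this]
    | succ n ih =>
      intro v hv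
      obtain ⟨l, hl⟩ := v
      simp only at hv
      cases l with
      | nil => simp at hv
      | cons x l =>
        have hl2 : l.length ≤ h := by simp at hl; omega
        have h1 := ih ⟨l, hl2⟩ (by simp at hv; simpa using hv)
        have h2 : (TT M h).Adj ⟨l, hl2⟩ ⟨x :: l, hl⟩ := Or.inl ⟨x, rfl⟩
        exact h1.trans h2.reachable
  have : Nonempty (VT M h) := ⟨⟨[], by simp⟩⟩
  exact SimpleGraph.Connected.mk fun u v => (key _ u rfl).symm.trans (key _ v rfl)

theorem sort_three {ι : Type*} (f : ι → ℝ) (x y z : ι) (hxy : x ≠ y) (hxz : x ≠ z) (hyz : y ≠ z)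
    (P : ι → Prop) (hx : P x) (hy : P y) (hz : P z) :
    ∃ p q r, p ≠ q ∧ q ≠ r ∧ P p ∧ P q ∧ P r ∧ f p ≤ f q ∧ f q ≤ f r := by
  rcases le_total (f x) (f y) with h1 | h1 <;> rcases le_total (f y) (f z) with h2 | h2 <;>
    rcases le_total (f x) (f z) with h3 | h3
  · exact ⟨x, y, z, hxy, hyz, hx, hy, hz, h1, h2⟩
  · exact ⟨x, y, z, hxy, hyz, hx, hy, hz, h1, h2⟩
  · exact ⟨x, z, y, hxz, hyz.symm, hx, hz, hy, h3, h2⟩
  · exact ⟨z, x, y, hxz.symm, hxy, hz, hx, hy, h3, h1⟩
  · exact ⟨y, x, z, hxy.symm, hxz, hy, hx, hz, h1, h3⟩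
  · exact ⟨y, z, x, hyz, hxz.symm, hy, hz, hx, h2, h3⟩
  · exact ⟨z, y, x, hyz.symm, hxy.symm, hz, hy, hx, h2, h1⟩
  · exact ⟨z, y, x, hyz.symm, hxy.symm, hz, hy, hx, h2, h1⟩

theorem main_step (M h k : ℕ) (hM : k * k * 2 < M) (w : VT M h → ℝ) (a b : Fin k → ℝ)
    (hadj : ∀ u v, u ≠ v → ((TT M h).Adj u v ↔ ∃ i, w u + w v ∈ Set.Icc (a i) (b i))) (n : ℕ) :
    ∀ l : VT M h, l.1.length + n + 1 = h → ∃ t : Fin k,
      n + 1 ≤ (univ.filter (fun i : Fin k => b i - a i ≤ b t - a t)).card ∧
      ∃ v : VT M h, (∃ x, v.1 = x :: l.1) ∧ w l + w v ∈ Set.Icc (a t) (b t) := by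
  have hne : ∀ (u v : VT M h) (x : Fin M), v.1 = x :: u.1 → u ≠ v := by
    intro u v x hx huv
    have := congrArg List.length hx
    rw [huv] at this
    simp at this
  induction n with
  | zero =>
    intro l hl
    have hv : ((⟨0, by omega⟩ : Fin M) :: l.1).length ≤ h := by simp; omega
    set v : VT M h := ⟨(⟨0, by omega⟩ : Fin M) :: l.1, hv⟩ with hvdef
    have h1 : (TT M h).Adj l v := Or.inl ⟨_, rfl⟩
    obtain ⟨t, ht⟩ := (hadj l v (hne l v _ rfl)).1 h1
    refine ⟨t, ?_, v, ⟨_, rfl⟩, ht⟩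
    rw [Nat.zero_add, Nat.one_le_iff_ne_zero, ← Nat.pos_iff_ne_zero, Finset.card_pos]
    exact ⟨t, by simp⟩
  | succ n ih =>
    intro l hl
    have hv : ∀ i : Fin M, (i :: l.1).length ≤ h := by intro i; simp; omega
    let vv : Fin M → VT M h := fun i => ⟨i :: l.1, hv i⟩
    have h1 : ∀ i, ∃ t : Fin k,
        n + 1 ≤ (univ.filter (fun i : Fin k => b i - a i ≤ b t - a t)).card ∧
        ∃ v : VT M h, (∃ x, v.1 = x :: (vv i).1) ∧ w (vv i) + w v ∈ Set.Icc (a t) (b t) :=
      fun i => ih (vv i) (by simp [vv]; omega)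
    choose τ hτ using h1
    have h2 : ∀ i, ∃ t : Fin k, w l + w (vv i) ∈ Set.Icc (a t) (b t) := fun i =>
      (hadj l (vv i) (hne l (vv i) i rfl)).1 (Or.inl ⟨i, rfl⟩)
    choose e he using h2
    obtain ⟨y, hy⟩ := Fintype.exists_lt_card_fiber_of_mul_lt_card (n := 2)
      (f := fun i : Fin M => (e i, τ i)) (by simpa using hM)
    rw [Finset.two_lt_card] at hy
    obtain ⟨x1, hx1, x2, hx2, x3, hx3, h12, h13, h23⟩ := hy
    simp only [mem_filter, mem_univ, true_and] at hx1 hx2 hx3
    obtain ⟨p, q, r, hpq, hqr, hp, hq, hr, hle1, hle2⟩ :=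
      sort_three (fun i => w (vv i)) x1 x2 x3 h12 h13 h23
        (fun i => (e i, τ i) = y) hx1 hx2 hx3
    obtain ⟨y1, y2⟩ := y
    simp only [Prod.mk.injEq] at hp hq hr
    obtain ⟨-, v, ⟨x, hx⟩, hxv⟩ := hτ q
    rw [hq.2] at hxv
    have hvv : ∀ i j, i ≠ j → v.1 = x :: (vv i).1 → ¬ (TT M h).Adj (vv j) v := by
      intro i j hij hvi hadj'
      rcases hadj' with ⟨z, hz⟩ | ⟨z, hz⟩
      · rw [hvi] at hz
        simp only [vv, List.cons.injEq] at hz
        exact hij hz.2.1
      · rw [hvi] at hz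
        have := congrArg List.length hz
        simp [vv] at this
    have hvne : ∀ j, vv j ≠ v := by
      intro j hj
      rw [← hj] at hx
      have := congrArg List.length hx
      simp [vv] at this
    have hn1 : ¬ ∃ i, w (vv p) + w v ∈ Set.Icc (a i) (b i) := fun hh =>
      hvv q p hpq.symm hx ((hadj (vv p) v (hvne p)).2 hh)
    have hn2 : ¬ ∃ i, w (vv r) + w v ∈ Set.Icc (a i) (b i) := fun hh =>
      hvv q r hqr hx ((hadj (vv r) v (hvne r)).2 hh)
    have hlow : w (vv p) + w v < a y2 := by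
      by_contra hc
      exact hn1 ⟨y2, not_lt.1 hc, le_trans (by linarith) hxv.2⟩
    have hhigh : b y2 < w (vv r) + w v := by
      by_contra hc
      exact hn2 ⟨y2, le_trans hxv.1 (by linarith), not_lt.1 hc⟩
    have hep := he p
    have her := he r
    rw [hp.1] at hep
    rw [hr.1] at her
    have hL : b y2 - a y2 < b y1 - a y1 := by
      have := hep.1
      have := her.2
      linarith
    refine ⟨y1, ?_, vv p, ⟨p, rfl⟩, hep⟩
    have h3 := (hτ q).1
    rw [hq.2] at h3
    have h4 : (univ.filter (fun i : Fin k => b i - a i ≤ b y2 - a y2)).card <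
        (univ.filter (fun i : Fin k => b i - a i ≤ b y1 - a y1)).card := by
      apply Finset.card_lt_card
      rw [Finset.ssubset_iff_of_subset]
      · exact ⟨y1, by simp, by simp; linarith⟩
      · intro i hi
        simp only [mem_filter, mem_univ, true_and] at hi ⊢
        linarith
    omega

theorem dist_root (M h : ℕ) : ∀ n : ℕ, ∀ v : VT M h, v.1.length = n →
    (TT M h).dist ⟨[], by simp⟩ v ≤ n := by
  intro n
  induction n with
  | zero =>
    intro v hv
    have : v = ⟨[], by simp⟩ := Subtype.ext (List.eq_nil_of_length_eq_zero hv)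
    rw [this]
    simp
  | succ n ih =>
    intro v hv
    obtain ⟨l, hl⟩ := v
    simp only at hv
    cases l with
    | nil => simp at hv
    | cons x l =>
      have hl2 : l.length ≤ h := by simp at hl; omega
      have h1 := ih ⟨l, hl2⟩ (by simp at hv; simpa using hv)
      have h2 : (TT M h).Adj ⟨l, hl2⟩ ⟨x :: l, hl⟩ := Or.inl ⟨x, rfl⟩
      have h3 := (connected M h).dist_triangle (u := ⟨[], by simp⟩) (v := ⟨l, hl2⟩)
        (w := ⟨x :: l, hl⟩)
      rw [SimpleGraph.dist_eq_one_iff_adj.2 h2] at h3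
      omega

/-- For every `c` there is a finite tree which is not a star-`k`-PCG for any `k ≤ c`: the star
number is unbounded on trees, hence on forests. The tree has radius at most `c + 1`. -/
theorem result (c : ℕ) : ∃ (V : Type) (_ : Finite V) (G : SimpleGraph V),
    G.IsTree ∧ G.IsAcyclic ∧ (∃ r, ∀ v, G.dist r v ≤ c + 1) ∧ ∀ k ≤ c, ¬ IsStarPCG G k := by
  refine ⟨VT (c * c * 2 + 1) (c + 1), finite_VT _ _, TT _ _,
    ⟨connected _ _, acyclic _ _⟩, acyclic _ _,
    ⟨⟨[], by simp⟩, fun v => (dist_root _ _ _ v rfl).trans v.2⟩, ?_⟩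
  rintro k hk ⟨w, a, b, -, -, -, hadj⟩
  have hM : k * k * 2 < c * c * 2 + 1 := by
    have := Nat.mul_le_mul hk hk
    omega
  obtain ⟨t, ht, -⟩ := main_step _ _ k hM w a b hadj c ⟨[], by simp⟩ (by simp)
  have h1 := Finset.card_le_univ (univ.filter (fun i : Fin k => b i - a i ≤ b t - a t))
  rw [Fintype.card_fin] at h1
  omega

end Pool.Agent.Results.MP_90e7d5_co.Unbounded
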